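import Mathlib

/-! Keeping one point of every pair: the second moment of the side differences. -/

set_option linter.unusedSectionVars false

namespace CrSo

open Finset Function

variable {ι : Type} [Fintype ι] [DecidableEq ι]

lemma one_var (ψ : (ι → Bool) → ℤ) (i : ι) :
    2 * ∑ f, ψ f = ∑ f : ι → Bool, ∑ β, ψ (update f i β) := by
  have hi : Involutive fun f : ι → Bool => update f i (!f i) := fun f => by simp
  have h1 : ∑ f : ι → Bool, ψ (update f i (!f i)) = ∑ f, ψ f := hi.bijective.sum_comp ψ
  rw [two_mul]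
  nth_rewrite 1 [← h1]
  rw [← sum_add_distrib]
  refine sum_congr rfl fun f _ => ?_
  rw [Fintype.sum_bool]
  cases h : f i
  · rw [show update f i false = f by rw [← h, update_eq_self]]; rfl
  · rw [show update f i true = f by rw [← h, update_eq_self], add_comm]; rfl

lemma two_var (ψ : (ι → Bool) → ℤ) (i j : ι) :
    4 * ∑ f, ψ f = ∑ f : ι → Bool, ∑ β, ∑ γ, ψ (update (update f i β) j γ) := by
  have h1 := one_var ψ j
  have h2 := one_var (fun f => ∑ γ, ψ (update f j γ)) i
  linarith

lemma var (u : ι → Bool → ℤ) : 4 * ∑ f : ι → Bool, (∑ k, u k (f k)) ^ 2 =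
    ∑ _f : ι → Bool, ((∑ k, (u k true + u k false)) ^ 2 + ∑ k, (u k true - u k false) ^ 2) := by
  have h : ∀ k l, 4 * ∑ f : ι → Bool, u k (f k) * u l (f l) = ∑ _f : ι → Bool,
      ((u k true + u k false) * (u l true + u l false) +
        if k = l then (u k true - u k false) ^ 2 else 0) := fun k l => by
    rw [two_var _ k l]
    refine sum_congr rfl fun f _ => ?_
    split_ifs with e
    · subst e
      simp only [update_self, Fintype.sum_bool]
      ring
    · simp only [update_self, update_of_ne e, Fintype.sum_bool]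
      ring
  calc 4 * ∑ f : ι → Bool, (∑ k, u k (f k)) ^ 2
      = ∑ k, ∑ l, 4 * ∑ f : ι → Bool, u k (f k) * u l (f l) := by
        simp only [← mul_sum]
        simp only [sq, sum_mul_sum]
        rw [sum_comm]
        exact congrArg _ (sum_congr rfl fun k _ => sum_comm)
    _ = _ := by
        simp only [h]
        rw [sum_congr rfl fun k _ => sum_comm, sum_comm]
        refine sum_congr rfl fun f _ => ?_
        rw [sq, sum_mul_sum, ← sum_add_distrib]
        refine sum_congr rfl fun k _ => ?_
        rw [sum_add_distrib, sum_ite_eq, if_pos (mem_univ _)]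

/-- The other point of the pair. -/
def par (a : ι × Bool) : ι × Bool := (a.1, !a.2)

lemma par_inv : Involutive (par (ι := ι)) := fun a => by simp [par]

variable {O : ι × Bool → ι × Bool → ι × Bool → ℤ}

/-- How often a line through two points separates the points of a pair. -/
def sepV (O : ι × Bool → ι × Bool → ι × Bool → ℤ) : ℤ :=
  ∑ a, ∑ b, ∑ k, (O a b (k, true) - O a b (k, false)) ^ 2

section
variable (sw : ∀ a b c, O a c b = - O a b c) (ro : ∀ a b c, O b c a = O a b c)
  (bd : ∀ a b c, |O a b c| ≤ 1)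
include sw ro

lemma z1 (a b : ι × Bool) : O a b b = 0 := by have := sw a b b; linarith
lemma z2 (a b : ι × Bool) : O a b a = 0 := by rw [ro]; exact z1 sw ro _ _ ▸ (ro _ _ _)
lemma z3 (a b : ι × Bool) : O a a b = 0 := by rw [← ro]; exact z2 sw ro _ _

include bd

lemma cross1 : - sepV O ≤ ∑ a, ∑ b, (∑ c, O a b c) * O a b (par a) := by
  have h1 : ∑ a, ∑ b, (∑ c, O a b c) * O a b (par a) =
      ∑ a, ∑ b, (∑ c, O (par a) b c) * - O a b (par a) := by
    rw [← par_inv.bijective.sum_comp]
    refine sum_congr rfl fun a _ => sum_congr rfl fun b _ => ?_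
    rw [par_inv a, ← ro (par a) b a, sw b (par a) a, ro a b (par a) |>.symm, ← ro]
  have h2 : ∑ a, ∑ b, ∑ c, (O b c a - O b c (par a)) ^ 2 = 2 * sepV O := by
    rw [sum_comm, sepV, mul_sum]
    refine sum_congr rfl fun b _ => ?_
    rw [sum_comm, mul_sum]
    refine sum_congr rfl fun c _ => ?_
    rw [Fintype.sum_prod_type, mul_sum]
    refine sum_congr rfl fun k _ => ?_
    simp only [Fintype.sum_bool, par, Bool.not_true, Bool.not_false]
    ring
  have h3 : - ∑ a, ∑ b, ∑ c, (O b c a - O b c (par a)) ^ 2 ≤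
      ∑ a, ∑ b, (∑ c, O a b c) * O a b (par a) +
        ∑ a, ∑ b, (∑ c, O (par a) b c) * - O a b (par a) := by
    simp only [sum_mul, ← sum_add_distrib, ← sum_neg_distrib]
    refine sum_le_sum fun a _ => sum_le_sum fun b _ => sum_le_sum fun c _ => ?_
    rw [ro a b c, ro (par a) b c]
    have h4 := abs_le.1 (bd a b (par a))
    have h5 : O a b c * O a b (par a) + O (par a) b c * - O a b (par a) =
        (O a b c - O (par a) b c) * O a b (par a) := by ring
    rw [h5]
    generalize O a b (par a) = s at h4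
    generalize O a b c - O (par a) b c = z
    rcases lt_trichotomy z 0 with h | h | h
    · nlinarith
    · simp [h]
    · nlinarith
  linarith

lemma cross2 : - sepV O ≤ ∑ a, ∑ b, (∑ c, O a b c) * O a b (par b) := by
  rw [sum_comm]
  refine (cross1 sw ro bd).trans (le_of_eq (sum_congr rfl fun a _ => sum_congr rfl fun b _ => ?_))
  have h : ∀ c, O b a c = - O a b c := fun c => by rw [← ro a b c, sw b c a]
  simp only [h, sum_neg_distrib, neg_mul_neg]

lemma pair (i j : ι) : 16 * ∑ f : ι → Bool, (∑ k, O (i, f i) (j, f j) (k, f k)) ^ 2 ≤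
    ∑ _f : ι → Bool, ∑ β, ∑ γ, ((∑ c, O (i, β) (j, γ) c - O (i, β) (j, γ) (par (i, β)) -
      O (i, β) (j, γ) (par (j, γ))) ^ 2 +
        ∑ k, (O (i, β) (j, γ) (k, true) - O (i, β) (j, γ) (k, false)) ^ 2) := by
  by_cases e : i = j
  · subst e
    simp only [z3 sw ro (i, _), sum_const_zero, ne_eq, OfNat.ofNat_ne_zero, not_false_eq_true,
      zero_pow, mul_zero]
    positivity
  rw [show (16 : ℤ) = 4 * 4 by norm_num, mul_assoc, two_var _ i j, sum_comm, mul_sum,
    sum_comm (s := univ) (t := (univ : Finset Bool))]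
  refine sum_le_sum fun β _ => ?_
  rw [sum_comm, mul_sum, sum_comm (s := univ) (t := (univ : Finset Bool))]
  refine sum_le_sum fun γ _ => ?_
  have h := var fun k ε => if k = i ∨ k = j then 0 else O (i, β) (j, γ) (k, ε)
  refine le_of_eq_of_le (Eq.trans ?_ h) (sum_le_sum fun f _ => add_le_add (le_of_eq ?_) ?_)
  · refine congrArg _ (sum_congr rfl fun f _ => congrArg (· ^ 2) (sum_congr rfl fun k _ => ?_))
    rw [update_self, update_of_ne e, update_self]
    split_ifs with hk
    · rcases hk with rfl | rfl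
      · rw [update_of_ne e, update_self, z2 sw ro]
      · rw [update_self, z1 sw ro]
    · rw [not_or] at hk
      rw [update_of_ne hk.2, update_of_ne hk.1]
  · refine congrArg (· ^ 2) ?_
    have h1 : ∀ k, ((if k = i ∨ k = j then 0 else O (i, β) (j, γ) (k, true)) +
        if k = i ∨ k = j then 0 else O (i, β) (j, γ) (k, false)) = ∑ ε, O (i, β) (j, γ) (k, ε) -
        (if k = i then O (i, β) (j, γ) (par (i, β)) else 0) -
        if k = j then O (i, β) (j, γ) (par (j, γ)) else 0 := fun k => by
      rw [Fintype.sum_bool]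
      by_cases h1 : k = i
      · subst h1
        cases β <;> simp [e, par, z2 sw ro]
      by_cases h2 : k = j
      · subst h2
        cases γ <;> simp [h1, par, z1 sw ro]
      simp [h1, h2]
    simp only [h1, sum_sub_distrib, sum_ite_eq', mem_univ, if_true, Fintype.sum_prod_type]
  · refine sum_le_sum fun k _ => ?_
    split_ifs
    · simpa using sq_nonneg _
    · rfl

theorem half : ∃ f : ι → Bool, 16 * ∑ i, ∑ j, (∑ k, O (i, f i) (j, f j) (k, f k)) ^ 2 ≤
    ∑ a, ∑ b, (∑ c, O a b c) ^ 2 + 5 * sepV O + 16 * (Fintype.card ι : ℤ) ^ 2 := by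
  refine (exists_le_of_sum_le univ_nonempty ?_).imp fun f h => h.2
  have h1 := sum_le_sum (s := univ) fun i _ => sum_le_sum (s := univ) fun j _ => pair sw ro bd i j
  have h2 : ∑ a, ∑ b, ((∑ c, O a b c - O a b (par a) - O a b (par b)) ^ 2 +
      ∑ k, (O a b (k, true) - O a b (k, false)) ^ 2) ≤
      ∑ a, ∑ b, (∑ c, O a b c) ^ 2 + 5 * sepV O + 16 * (Fintype.card ι : ℤ) ^ 2 := by
    have h3 := cross1 sw ro bd
    have h4 := cross2 sw ro bd
    have h5 : ∑ a, ∑ b, (∑ c, O a b c - O a b (par a) - O a b (par b)) ^ 2 ≤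
        ∑ a, ∑ b, ((∑ c, O a b c) ^ 2 - 2 * ((∑ c, O a b c) * O a b (par a)) -
          2 * ((∑ c, O a b c) * O a b (par b)) + 4) :=
      sum_le_sum fun a _ => sum_le_sum fun b _ => by
        have h6 := abs_le.1 (bd a b (par a))
        have h7 := abs_le.1 (bd a b (par b))
        nlinarith
    simp only [sum_add_distrib, sum_sub_distrib, ← mul_sum, sum_const, card_univ,
      Fintype.card_prod, Fintype.card_bool, nsmul_eq_mul] at h5 ⊢
    push_cast at h5
    rw [← sepV]
    linarith
  calc _ = ∑ i, ∑ j, 16 * ∑ f : ι → Bool, (∑ k, O (i, f i) (j, f j) (k, f k)) ^ 2 := by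
        simp only [← mul_sum]
        rw [sum_comm]
        exact congrArg _ (sum_congr rfl fun k _ => sum_comm)
    _ ≤ _ := h1
    _ ≤ _ := by
        rw [sum_congr rfl fun k _ => sum_comm, sum_comm]
        refine sum_le_sum fun f _ => le_of_eq_of_le ?_ h2
        simp only [Fintype.sum_prod_type]
        exact sum_congr rfl fun i _ => sum_comm

end

end CrSo
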