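import Mathlib
import Pool.Agent.MP_31ecd0_co.up.Data

/-! The exact relation between convex quadrilaterals and squared side differences. -/

namespace CrSo

open Finset CrUp

lemma notMem_hull {p q x y : P} (h : det (q - p) (x - p) * det (q - p) (y - p) < 0) {s : Set P}
    (hs : ∀ z ∈ s, z = p ∨ z = q ∨ z = y) : x ∉ convexHull ℝ s := by
  intro hx
  have hc : Convex ℝ {z : P | 0 ≤ det (q - p) (z - p) * det (q - p) (y - p)} := by
    intro z hz w hw α β hα hβ hab
    simp only [Set.mem_ofPred_eq] at hz hw ⊢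
    have e : det (q - p) (α • z + β • w - p) =
        α * det (q - p) (z - p) + β * det (q - p) (w - p) := by
      have : β = 1 - α := by linarith
      subst this
      simp only [det, Prod.fst_sub, Prod.snd_sub, Prod.fst_add, Prod.snd_add, Prod.smul_fst,
        Prod.smul_snd, smul_eq_mul]
      ring
    rw [e, add_mul, mul_assoc, mul_assoc]
    exact add_nonneg (mul_nonneg hα hz) (mul_nonneg hβ hw)
  have := convexHull_min (t := {z : P | 0 ≤ det (q - p) (z - p) * det (q - p) (y - p)}) (by
    intro z hz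
    simp only [Set.mem_ofPred_eq]
    rcases hs z hz with rfl | rfl | rfl
    · simp [det]
    · simp [det, mul_comm]
    · exact mul_self_nonneg _) hc hx
  simp only [Set.mem_ofPred_eq] at this
  linarith

lemma conv_of {a b c d : P} {Q : Finset P} (hQ : ∀ x ∈ Q, x = a ∨ x = b ∨ x = c ∨ x = d)
    (h1 : det (c - a) (b - a) * det (c - a) (d - a) < 0)
    (h2 : det (d - b) (a - b) * det (d - b) (c - b) < 0) :
    ConvexIndependent ℝ ((↑) : Q → P) := by
  refine (convexIndependent_set_iff_notMem_convexHull_sdiff (𝕜 := ℝ) (s := (Q : Set P))).2 ?_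
  intro x hx
  rcases hQ x hx with rfl | rfl | rfl | rfl
  · exact notMem_hull h2 fun z hz => by have := hQ z hz.1; have := hz.2; tauto
  · exact notMem_hull h1 fun z hz => by have := hQ z hz.1; have := hz.2; tauto
  · exact notMem_hull (by rw [mul_comm]; exact h2) fun z hz => by
      have := hQ z hz.1; have := hz.2; tauto
  · exact notMem_hull (by rw [mul_comm]; exact h1) fun z hz => by
      have := hQ z hz.1; have := hz.2; tauto

lemma six_le (a b c d : P) (nA : det (b - a) (c - a) ≠ 0) (nB : det (b - a) (d - a) ≠ 0)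
    (nC : det (c - a) (d - a) ≠ 0) (nD : det (c - b) (d - b) ≠ 0) {Q : Finset P}
    (hQ : ∀ x ∈ Q, x = a ∨ x = b ∨ x = c ∨ x = d) :
    six a b c d ≤ 2 ∧ (¬ ConvexIndependent ℝ ((↑) : Q → P) → six a b c d ≤ 0) := by
  have h := det_rel a b c d
  have r1 : det (b - a) (c - a) * det (b - a) (d - a) < 0 →
      det (c - a) (d - a) * det (c - b) (d - b) < 0 → ConvexIndependent ℝ ((↑) : Q → P) :=
    fun h h' => conv_of (a := a) (b := c) (c := b) (d := d) (fun x hx => by
      have := hQ x hx; tauto) h (by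
        convert h' using 1; simp only [det, Prod.fst_sub, Prod.snd_sub]; ring)
  have r2 : 0 < det (b - a) (c - a) * det (c - a) (d - a) →
      0 < det (b - a) (d - a) * det (c - b) (d - b) → ConvexIndependent ℝ ((↑) : Q → P) :=
    fun h h' => conv_of (a := a) (b := b) (c := c) (d := d) hQ (by
        convert neg_lt_zero.2 h using 1; simp only [det, Prod.fst_sub, Prod.snd_sub]; ring) (by
        convert neg_lt_zero.2 h' using 1; simp only [det, Prod.fst_sub, Prod.snd_sub]; ring)
  have r3 : det (b - a) (d - a) * det (c - a) (d - a) < 0 →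
      det (b - a) (c - a) * det (c - b) (d - b) < 0 → ConvexIndependent ℝ ((↑) : Q → P) :=
    fun h h' => conv_of (a := a) (b := b) (c := d) (d := c) (fun x hx => by
      have := hQ x hx; tauto) (by
        convert h using 1; simp only [det, Prod.fst_sub, Prod.snd_sub]; ring) (by
        convert h' using 1; simp only [det, Prod.fst_sub, Prod.snd_sub]; ring)
  rw [six_eq, o, o, o, o]
  generalize ConvexIndependent ℝ ((↑) : Q → P) = CI at *
  generalize det (b - a) (c - a) = A at *
  generalize det (b - a) (d - a) = B at *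
  generalize det (c - a) (d - a) = C at *
  generalize det (c - b) (d - b) = D at *
  clear hQ
  rcases sg_cases A with ⟨h1, e1⟩ | ⟨h1, -⟩ | ⟨h1, e1⟩ <;>
    rcases sg_cases B with ⟨h2, e2⟩ | ⟨h2, -⟩ | ⟨h2, e2⟩ <;>
    rcases sg_cases C with ⟨h3, e3⟩ | ⟨h3, -⟩ | ⟨h3, e3⟩ <;>
    rcases sg_cases D with ⟨h4, e4⟩ | ⟨h4, -⟩ | ⟨h4, e4⟩ <;>
    first
      | contradiction
      | (exfalso; linarith)
      | (rw [e1, e2, e3, e4]
         refine ⟨by decide, fun hn => ?_⟩
         first
          | decide
          | exact absurd (r1 (by nlinarith) (by nlinarith)) hn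
          | exact absurd (r2 (by nlinarith) (by nlinarith)) hn
          | exact absurd (r3 (by nlinarith) (by nlinarith)) hn)

/-- The sum over the six pairs among four points. -/
def sym (g : P → P → P → P → ℤ) (a b c d : P) : ℤ :=
  g a b c d + g a c b d + g a d b c + g b c a d + g b d a c + g c d a b

lemma F_sym (S : Finset P) (g : P → P → P → P → ℤ) : F S (sym g) = 6 * F S g := by
  have h1 := s23 S g
  have h2 := (s34 S _).trans h1
  have h3 := (s12 S _).trans h1
  have h4 := (s12 S _).trans h2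
  have h5 := (s23 S _).trans h4
  simp only [F, sym, sum_add_distrib] at *
  rw [h1, h2, h3, h4, h5]; ring

lemma nodup {a b c d : P} [DecidableEq P] (h : ({a, b, c, d} : Finset P).card = 4) :
    a ≠ b ∧ a ≠ c ∧ a ≠ d ∧ b ≠ c ∧ b ≠ d ∧ c ≠ d := by
  have hn : [a, b, c, d].Nodup := by
    rw [← List.dedup_eq_self]
    refine (List.dedup_sublist _).eq_of_length ?_
    have : ({a, b, c, d} : Finset P) = [a, b, c, d].toFinset := by simp
    rw [this, List.card_toFinset] at h
    exact h
  simp only [List.nodup_cons, List.mem_cons, List.not_mem_nil, or_false, not_or] at hn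
  exact ⟨hn.1.1, hn.1.2.1, hn.1.2.2, hn.2.1.1, hn.2.1.2, hn.2.2.1⟩

open Classical in
lemma fiber_eq {S Q : Finset P} (h1 : Q ⊆ S) (h2 : Q.card = 4) : ((S ×ˢ S ×ˢ S ×ˢ S).filter
    fun t => ({t.1, t.2.1, t.2.2.1, t.2.2.2} : Finset P) = Q).card = 24 := by
  refine le_antisymm ?_ (fiber h1 h2)
  have h3 : (Q.sigma fun a => (Q.erase a).sigma fun b => ((Q.erase a).erase b).sigma fun c =>
      ((Q.erase a).erase b).erase c).card = 24 := by
    rw [card_sigma, sum_const_nat (m := 6) fun a ha => ?_, h2]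
    rw [card_sigma, sum_const_nat (m := 2) fun b hb => ?_, card_erase_of_mem ha, h2]
    rw [card_sigma, sum_const_nat (m := 1) fun c hc => ?_, card_erase_of_mem hb,
      card_erase_of_mem ha, h2]
    rw [card_erase_of_mem hc, card_erase_of_mem hb, card_erase_of_mem ha, h2]
  rw [← h3]
  refine card_le_card_of_injOn (fun t => ⟨t.1, t.2.1, t.2.2.1, t.2.2.2⟩) (fun t ht => ?_)
    fun t _ t' _ h => ?_
  · have h4 := (mem_filter.1 ht).2
    obtain ⟨a1, a2, a3, a4, a5, a6⟩ := nodup (h4 ▸ h2 :)
    simp [← h4, a1.symm, a2.symm, a3.symm, a4.symm, a5.symm, a6.symm]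
  · simp only [Sigma.mk.injEq, heq_eq_eq] at h
    exact Prod.ext h.1 (Prod.ext h.2.1 (Prod.ext h.2.2.1 h.2.2.2))

open Classical in
/-- One for four distinct points in convex position. -/
noncomputable def cv (a b c d : P) : ℤ :=
  if ({a, b, c, d} : Finset P).card = 4 ∧
    ConvexIndependent ℝ ((↑) : ({a, b, c, d} : Finset P) → P) then 1 else 0

lemma F_cv (S : Finset P) : F S cv = 24 * conv S := by
  classical
  obtain ⟨C, hC⟩ : ∃ C, C = (S.powersetCard 4).filter
    fun Q : Finset P => ConvexIndependent ℝ ((↑) : Q → P) := ⟨_, rfl⟩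
  have h4 : conv S = C.card := by rw [hC, conv]
  have hC' : ∀ Q, Q ∈ C ↔ Q ⊆ S ∧ Q.card = 4 ∧ ConvexIndependent ℝ ((↑) : Q → P) := fun Q => by
    rw [hC, mem_filter, mem_powersetCard, and_assoc]
  have h1 : ((S ×ˢ S ×ˢ S ×ˢ S).filter
      fun t => ({t.1, t.2.1, t.2.2.1, t.2.2.2} : Finset P) ∈ C).card = C.card * 24 := by
    refine (card_eq_sum_card_fiberwise (f := fun t : P × P × P × P =>
      ({t.1, t.2.1, t.2.2.1, t.2.2.2} : Finset P)) (t := C) fun t ht =>
        (mem_filter.1 (mem_coe.1 ht)).2).trans (sum_const_nat fun Q hQ => ?_)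
    rw [← fiber_eq ((hC' Q).1 hQ).1 ((hC' Q).1 hQ).2.1, filter_filter]
    exact congrArg _ (filter_congr fun t _ => ⟨fun h => h.2, fun h => ⟨by
      subst h; exact hQ, h⟩⟩)
  rw [h4, mul_comm, show (C.card : ℤ) * 24 = (C.card * 24 : ℕ) by simp, ← h1, card_filter]
  push_cast
  simp only [sum_product, F]
  refine sum_congr rfl fun a ha => sum_congr rfl fun b hb => sum_congr rfl fun c hc =>
    sum_congr rfl fun d hd => ?_
  rw [cv]
  refine if_congr ?_ rfl rfl
  rw [hC']
  simp [insert_subset_iff, ha, hb, hc, hd]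

open Classical in
/-- One when the last two points agree and there is no other coincidence. -/
noncomputable def dg (a b c d : P) : ℤ := if c = d ∧ a ≠ b ∧ a ≠ c ∧ b ≠ c then 1 else 0

lemma F_dg (S : Finset P) : F S dg = S.card * (S.card - 1) * (S.card - 2) := by
  classical
  have h : ∀ a b c d, dg a b c d = if c = d then (1 - (if a = b then 1 else 0) -
      (if a = c then 1 else 0) - (if b = c then 1 else 0) +
      2 * if b = c then (if a = b then 1 else 0) else 0) else 0 := fun a b c d => by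
    unfold dg
    by_cases h1 : a = b <;> by_cases h2 : b = c <;> by_cases h3 : a = c <;> by_cases h4 : c = d <;>
      simp_all
  simp only [F, h]
  rw [sum_congr rfl fun a ha => sum_congr rfl fun b hb => sum_congr rfl fun c hc =>
    (sum_ite_eq S c _).trans (if_pos hc)]
  simp only [sum_add_distrib, sum_sub_distrib, ← mul_sum, sum_ite_eq, sum_const, nsmul_eq_mul,
    sum_ite_mem, inter_self]
  ring

theorem ident {S : Finset P} (hS : GP S) : ∑ a ∈ S, ∑ b ∈ S, (∑ c ∈ S, o a b c) ^ 2 =
    8 * conv S + S.card * (S.card - 1) * (S.card - 2) := by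
  classical
  have e : ∑ a ∈ S, ∑ b ∈ S, (∑ c ∈ S, o a b c) ^ 2 = F S fun a b c d => o a b c * o a b d := by
    simp only [F, sq, sum_mul_sum]
  have z : ∀ a ∈ S, ∀ b ∈ S, ∀ c ∈ S, ∀ d ∈ S,
      ¬ (a ≠ b ∧ a ≠ c ∧ a ≠ d ∧ b ≠ c ∧ b ≠ d ∧ c ≠ d) → o a b c * o a b d = dg a b c d := by
    intro a ha b hb c hc d hd h
    unfold dg
    split_ifs with h1
    · obtain ⟨rfl, h2, h3, h4⟩ := h1
      rw [← sq]
      exact sg_sq (hS a ha b hb c hc h2 h3 h4)
    by_cases e1 : a = b
    · simp [e1, o, det]
    by_cases e2 : a = c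
    · rw [← e2, o_left, zero_mul]
    by_cases e3 : b = c
    · rw [← e3, o_right, zero_mul]
    by_cases e4 : a = d
    · rw [← e4, o_left, mul_zero]
    by_cases e5 : b = d
    · rw [← e5, o_right, mul_zero]
    tauto
  have h1 : F S six = F S (sym dg) + 2 * F S cv := by
    simp only [F, mul_sum, ← sum_add_distrib]
    refine sum_congr rfl fun a ha => sum_congr rfl fun b hb => sum_congr rfl fun c hc =>
      sum_congr rfl fun d hd => ?_
    by_cases h : a ≠ b ∧ a ≠ c ∧ a ≠ d ∧ b ≠ c ∧ b ≠ d ∧ c ≠ d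
    · obtain ⟨ab, ac, ad, bc, bd, cd⟩ := h
      have h2 : sym dg a b c d = 0 := by simp [sym, dg, ab, ac, ad, bc, bd, cd]
      have h3 := six_le a b c d (hS a ha b hb c hc ab ac bc) (hS a ha b hb d hd ab ad bd)
        (hS a ha c hc d hd ac ad cd) (hS b hb c hc d hd bc bd cd) (Q := {a, b, c, d}) (by simp)
      have h4 : ({a, b, c, d} : Finset P).card = 4 := by simp [card_insert_of_notMem, *]
      rw [h2, zero_add, cv]
      split_ifs with h5
      · exact le_antisymm h3.1 (six_conv (by simp) (by simp) (by simp) (by simp) ab ac ad bc bd cd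
          (hS.mono (by simp [insert_subset_iff, *])) h5.2)
      · exact le_antisymm (h3.2 fun h => h5 ⟨h4, h⟩) (six_nonneg a b c d)
    · rw [cv, if_neg fun h5 => h (nodup h5.1), six, sym, z a ha b hb c hc d hd h,
        z a ha c hc b hb d hd (by tauto), z a ha d hd b hb c hc (by tauto),
        z b hb c hc a ha d hd (by tauto), z b hb d hd a ha c hc (by tauto),
        z c hc d hd a ha b hb (by tauto)]
      simp
  rw [F_six, F_sym, F_dg, F_cv] at h1
  rw [e]
  linarith

end CrSo
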