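import Pool.Agent.MP_31ecd0_co.so.Step

/-! The second order term of the rectilinear crossing number of the complete graph. -/

namespace CrSo

open Finset CrUp Filter Topology

lemma gp_iff' {a b c : P} (hab : a ≠ b) (h : ¬ Collinear ℝ ({a, b, c} : Set P)) :
    det (b - a) (c - a) ≠ 0 := fun h1 => h (by
  rw [collinear_iff_of_mem (p₀ := a) (by simp)]
  have h0 : (b - a).1 ^ 2 + (b - a).2 ^ 2 ≠ 0 := fun h => hab (sub_eq_zero.1 (Prod.ext
    (show (b - a).1 = 0 by nlinarith [sq_nonneg (b - a).1, sq_nonneg (b - a).2])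
    (show (b - a).2 = 0 by nlinarith [sq_nonneg (b - a).1, sq_nonneg (b - a).2]))).symm
  refine ⟨b - a, ?_⟩
  rintro p (rfl | rfl | rfl)
  · exact ⟨0, by simp⟩
  · exact ⟨1, by simp⟩
  · refine ⟨((p - a).1 * (b - a).1 + (p - a).2 * (b - a).2) / ((b - a).1 ^ 2 + (b - a).2 ^ 2), ?_⟩
    rw [vadd_eq_add, ← sub_eq_iff_eq_add]
    generalize p - a = x at *
    generalize b - a = y at *
    ext
    · simp only [Prod.smul_fst, smul_eq_mul]
      field_simp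
      simp only [det] at *
      linear_combination (-y.2) * h1
    · simp only [Prod.smul_snd, smul_eq_mul]
      field_simp
      simp only [det] at *
      linear_combination y.1 * h1)

lemma exists_gp (n : ℕ) : ∃ S : Finset P, S.card = n ∧ GP S := by
  classical
  refine ⟨(range n).image fun i : ℕ => ((i : ℝ), (i : ℝ) ^ 2), ?_, ?_⟩
  · rw [card_image_of_injective _ fun i j h => by exact_mod_cast (Prod.mk.inj h).1, card_range]
  · intro a ha b hb c hc hab hac hbc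
    obtain ⟨i, _, rfl⟩ := mem_image.1 ha
    obtain ⟨j, _, rfl⟩ := mem_image.1 hb
    obtain ⟨k, _, rfl⟩ := mem_image.1 hc
    have e : det (((j : ℝ), (j : ℝ) ^ 2) - ((i : ℝ), (i : ℝ) ^ 2))
        (((k : ℝ), (k : ℝ) ^ 2) - ((i : ℝ), (i : ℝ) ^ 2)) = (j - i) * (k - i) * (k - j) := by
      simp only [det, Prod.fst_sub, Prod.snd_sub]; ring
    rw [e]
    refine mul_ne_zero (mul_ne_zero (sub_ne_zero.2 ?_) (sub_ne_zero.2 ?_)) (sub_ne_zero.2 ?_)
    · intro h; exact hab (by rw [h])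
    · intro h; exact hac (by rw [h])
    · intro h; exact hbc (by rw [h])

/-- The least number of convex quadrilaterals. -/
noncomputable def cr (n : ℕ) : ℕ := sInf {m | ∃ S : Finset P, S.card = n ∧ GP S ∧ conv S = m}

lemma cr_spec (n : ℕ) : ∃ S : Finset P, S.card = n ∧ GP S ∧ conv S = cr n := by
  obtain ⟨S, h1, h2⟩ := exists_gp n
  exact Nat.sInf_mem (s := {m | ∃ S : Finset P, S.card = n ∧ GP S ∧ conv S = m}) ⟨_, S, h1, h2, rfl⟩

lemma cr_le {S : Finset P} {n : ℕ} (h1 : S.card = n) (h2 : GP S) : cr n ≤ conv S :=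
  Nat.sInf_le ⟨S, h1, h2, rfl⟩

lemma cr_le_choose (n : ℕ) : cr n ≤ n.choose 4 := by
  classical
  obtain ⟨S, h1, -, h3⟩ := cr_spec n
  rw [← h3, ← h1, ← card_powersetCard, conv]
  exact card_filter_le _ _

lemma lim : ∃ ρ : ℝ, Tendsto (fun n : ℕ => (cr n : ℝ) / (n.choose 4 : ℝ)) atTop (𝓝 ρ) ∧
    ∀ n : ℕ, (cr n : ℝ) ≤ ρ * n.choose 4 := by
  have mono : Monotone fun n : ℕ => (cr n : ℝ) / (n.choose 4 : ℝ) := fun n M h => by
    rcases lt_or_ge n 4 with hn | hn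
    · simp only [Nat.choose_eq_zero_of_lt hn, Nat.cast_zero, div_zero]
      positivity
    obtain ⟨S, h1, h2, h3⟩ := cr_spec M
    obtain ⟨A, a1, a2, a3⟩ := avg hn M h S h1 h2
    have a4 := (Nat.mul_le_mul_right _ (cr_le a1 a2)).trans (h3 ▸ a3)
    rw [div_le_div_iff₀ (by exact_mod_cast Nat.choose_pos hn)
      (by exact_mod_cast Nat.choose_pos (hn.trans h))]
    exact_mod_cast a4
  have bdd : BddAbove (Set.range fun n : ℕ => (cr n : ℝ) / (n.choose 4 : ℝ)) :=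
    ⟨1, Set.forall_mem_range.2 fun n => div_le_one_of_le₀ (by exact_mod_cast cr_le_choose n)
      (by positivity)⟩
  refine ⟨_, tendsto_atTop_ciSup mono bdd, fun n => ?_⟩
  rcases lt_or_ge n 4 with hn | hn
  · have := cr_le_choose n
    rw [Nat.choose_eq_zero_of_lt hn] at this ⊢
    simp [Nat.le_zero.1 this]
  · exact (div_le_iff₀ (by exact_mod_cast Nat.choose_pos hn)).1 (le_ciSup bdd n)

lemma lower {ρ : ℝ} (h : Tendsto (fun n : ℕ => (cr n : ℝ) / (n.choose 4 : ℝ)) atTop (𝓝 ρ))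
    (n : ℕ) : ρ * (n : ℝ) ^ 4 / 24 - (n : ℝ) ^ 3 / 8 ≤ cr n := by
  have h1 : ρ ≤ 1 := le_of_tendsto' h fun n =>
    div_le_one_of_le₀ (by exact_mod_cast cr_le_choose n) (by positivity)
  have h0 : (0 : ℝ) ≤ cr n := by positivity
  rcases lt_or_ge n 4 with hn | hn
  · interval_cases n <;> push_cast at * <;> linarith
  have hn' : (4 : ℝ) ≤ n := by exact_mod_cast hn
  have h2 : ρ ≤ (24 * cr n + 3 * (n : ℝ) ^ 3) / (n : ℝ) ^ 4 := by
    obtain ⟨S, s1, s2, s3⟩ := cr_spec n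
    refine le_of_tendsto h ((eventually_ge_atTop 4).mono fun k hk => ?_)
    obtain ⟨A, a1, a2, a3⟩ := of_blow (W := n) (by omega)
      (c := (24 * cr n + 3 * (n : ℝ) ^ 3) / (n : ℝ) ^ 4) (by positivity)
      (by simpa only [s1, s3] using up s2) (by
        rw [div_mul_cancel₀ _ (by positivity)]
        push_cast
        nlinarith) hk
    rw [div_le_iff₀ (by exact_mod_cast Nat.choose_pos hk)]
    exact le_trans (by exact_mod_cast cr_le a1 a2) a3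
  rw [le_div_iff₀ (by positivity)] at h2
  linarith

lemma step {m : ℕ} (hm : 1 ≤ m) : (8 * cr m + (m : ℝ) * (m - 1) * (m - 2)) / (m : ℝ) ^ 4 -
    95 / (m * √m) ≤ (8 * cr (m * 2) + ((m * 2 : ℕ) : ℝ) * ((m * 2 : ℕ) - 1) * ((m * 2 : ℕ) - 2)) /
      ((m * 2 : ℕ) : ℝ) ^ 4 - 95 / ((m * 2 : ℕ) * √(m * 2 : ℕ)) := by
  have m1 : (1 : ℝ) ≤ m := by exact_mod_cast hm
  have s1 : 1 ≤ √(m : ℝ) := Real.one_le_sqrt.2 m1
  have s2 : √(m : ℝ) * √m = m := Real.mul_self_sqrt (by positivity)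
  obtain ⟨S, h1, h2, h3⟩ := cr_spec (m * 2)
  have w1 := Nat.le_ceil (m * √(m : ℝ))
  have w2 := (Nat.ceil_lt_add_one (show 0 ≤ m * √(m : ℝ) by positivity)).le
  obtain ⟨A, a1, a2, a3⟩ := down h2 h1 (Nat.ceil_pos.2 (show 0 < m * √(m : ℝ) by positivity))
  generalize ⌈m * √(m : ℝ)⌉₊ = w at *
  have a4 : (w : ℝ) * (16 * (8 * conv A + m * (m - 1) * (m - 2))) ≤
      w * (8 * cr (m * 2) + 2 * m * (2 * m - 1) * (2 * m - 2)) + 80 * (w : ℝ) ^ 2 * m +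
        640 * (m : ℝ) ^ 4 + 176 * w * (m : ℝ) ^ 2 := by
    rw [← h3]; exact_mod_cast a3
  have a5 : (cr m : ℝ) ≤ conv A := by exact_mod_cast cr_le a1 a2
  have s3 : √((m * 2 : ℕ) : ℝ) = √m * √2 := by push_cast; exact Real.sqrt_mul (by positivity) _
  have s4 : (7 / 5 : ℝ) ≤ √2 := Real.le_sqrt_of_sq_le (by norm_num)
  rw [s3]
  generalize √(m : ℝ) = s at *
  have w0 : (0 : ℝ) < w := lt_of_lt_of_le (by positivity) w1
  have a6 : (m : ℝ) ^ 4 ≤ w * (m ^ 2 * s) := by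
    calc (m : ℝ) ^ 4 = m * s * (m ^ 2 * s) := by linear_combination (-(m : ℝ) ^ 3) * s2
      _ ≤ _ := by gcongr
  have a7 : 16 * (8 * cr m + (m : ℝ) * (m - 1) * (m - 2)) ≤
      8 * cr (m * 2) + 2 * m * (2 * m - 1) * (2 * m - 2) + 976 * (m ^ 2 * s) := by
    refine le_of_mul_le_mul_left ?_ w0
    have b1 : (m : ℝ) ^ 2 ≤ m ^ 2 * s := le_mul_of_one_le_right (by positivity) s1
    have b2 : (m : ℝ) ≤ m ^ 2 := by nlinarith
    have b3 : (w : ℝ) * m ≤ 2 * (m ^ 2 * s) := by nlinarith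
    have b4 := mul_le_mul_of_nonneg_left b3 w0.le
    have b5 := mul_le_mul_of_nonneg_left b1 w0.le
    have b6 := mul_le_mul_of_nonneg_left a5 w0.le
    nlinarith
  have a8 : 95 / (((m * 2 : ℕ) : ℝ) * (s * √2)) ≤ 34 / (m * s) := by
    push_cast
    rw [div_le_div_iff₀ (by positivity) (by positivity)]
    nlinarith [mul_pos (show (0 : ℝ) < m by positivity) (show 0 < s by positivity)]
  have a9 : (8 * cr m + (m : ℝ) * (m - 1) * (m - 2)) / (m : ℝ) ^ 4 ≤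
      (8 * cr (m * 2) + ((m * 2 : ℕ) : ℝ) * ((m * 2 : ℕ) - 1) * ((m * 2 : ℕ) - 2)) /
      ((m * 2 : ℕ) : ℝ) ^ 4 + 61 / (m * s) := by
    have e : 61 / (m * s) = 976 * (m ^ 2 * s) / ((m * 2 : ℕ) : ℝ) ^ 4 := by
      push_cast
      field_simp
      nlinarith
    rw [e, ← add_div, div_le_div_iff₀ (by positivity) (by positivity)]
    push_cast
    nlinarith [mul_le_mul_of_nonneg_left a7 (show 0 ≤ (m : ℝ) ^ 4 by positivity)]
  have e : 95 / (m * s) = 61 / (m * s) + 34 / (m * s) := by ring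
  linarith

lemma upper {ρ : ℝ} (h : ∀ n : ℕ, (cr n : ℝ) ≤ ρ * n.choose 4) (h0 : 0 ≤ ρ) (n : ℕ) :
    (cr n : ℝ) ≤ ρ * (n : ℝ) ^ 4 / 24 - (n : ℝ) ^ 3 / 8 + 13 * ((n : ℝ) ^ 2 * √n) := by
  rcases Nat.eq_zero_or_pos n with rfl | hn
  · simpa using h 0
  obtain ⟨a, ha⟩ : ∃ a : ℕ → ℝ, a = fun m : ℕ =>
    (8 * cr m + (m : ℝ) * (m - 1) * (m - 2)) / (m : ℝ) ^ 4 - 95 / (m * √m) := ⟨_, rfl⟩
  have h1 : ∀ t, a n ≤ a (n * 2 ^ t) := fun t => by
    induction t with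
    | zero => simp
    | succ t ih =>
      rw [pow_succ, ← mul_assoc]
      exact ih.trans (by rw [ha]; exact step (Nat.mul_pos hn (by positivity)))
  have h2 : ∀ m : ℕ, 1 ≤ m → a m ≤ ρ / 3 + 1 / m := fun m hm => by
    have m1 : (1 : ℝ) ≤ m := by exact_mod_cast hm
    have b1 : (m.choose 4 : ℝ) ≤ (m : ℝ) ^ 4 / 24 := by
      simpa [Nat.factorial] using Nat.choose_le_pow_div (α := ℝ) 4 m
    have b2 := (h m).trans (mul_le_mul_of_nonneg_left b1 h0)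
    have b3 : (0 : ℝ) ≤ 95 / (m * √m) := by positivity
    have b4 : (8 * cr m + (m : ℝ) * (m - 1) * (m - 2)) / (m : ℝ) ^ 4 ≤ ρ / 3 + 1 / m := by
      rw [div_le_iff₀ (by positivity), add_mul, show 1 / (m : ℝ) * m ^ 4 = m ^ 3 by field_simp]
      nlinarith
    simp only [ha]
    linarith
  have h3 : a n ≤ ρ / 3 := by
    refine le_of_forall_pos_le_add fun ε hε => ?_
    obtain ⟨t, ht⟩ := exists_nat_one_div_lt hε
    refine ((h1 t).trans (h2 _ (Nat.mul_pos hn (by positivity)))).trans (add_le_add_right ?_ _)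
    refine le_trans (one_div_le_one_div_of_le (by positivity) ?_) ht.le
    exact_mod_cast (Nat.lt_two_pow_self (n := t)).trans_le (Nat.le_mul_of_pos_left _ hn)
  have m1 : (1 : ℝ) ≤ n := by exact_mod_cast hn
  have s1 : 1 ≤ √(n : ℝ) := Real.one_le_sqrt.2 m1
  have s2 : √(n : ℝ) * √n = n := Real.mul_self_sqrt (by positivity)
  simp only [ha] at h3
  generalize √(n : ℝ) = s at *
  have e : 95 / (n * s) = 95 * (n ^ 2 * s) / (n : ℝ) ^ 4 := by
    field_simp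
    nlinarith
  rw [e, ← sub_div, div_le_iff₀ (by positivity)] at h3
  nlinarith [le_mul_of_one_le_right (show 0 ≤ (n : ℝ) ^ 2 by positivity) s1]

theorem main : ∃ ρ : ℝ, Tendsto (fun n : ℕ => (cr n : ℝ) / (n.choose 4 : ℝ)) atTop (𝓝 ρ) ∧
    ∀ n : ℕ, ρ * (n : ℝ) ^ 4 / 24 - (n : ℝ) ^ 3 / 8 ≤ cr n ∧
      (cr n : ℝ) ≤ ρ * (n : ℝ) ^ 4 / 24 - (n : ℝ) ^ 3 / 8 + 13 * (n : ℝ) ^ (5 / 2 : ℝ) := by
  obtain ⟨ρ, h1, h2⟩ := lim
  refine ⟨ρ, h1, fun n => ⟨lower h1 n, ?_⟩⟩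
  rw [show (5 / 2 : ℝ) = (2 : ℕ) + 1 / 2 by norm_num, Real.rpow_add' (by positivity) (by norm_num),
    Real.rpow_natCast, ← Real.sqrt_eq_rpow]
  exact upper h2 (ge_of_tendsto' h1 fun n => by positivity) n

lemma ratio {ρ : ℝ} {r : ℕ → ℕ} (h0 : 0 ≤ ρ) (h1 : ρ ≤ 1)
    (h : ∀ n : ℕ, ρ * (n : ℝ) ^ 4 / 24 - (n : ℝ) ^ 3 / 8 ≤ r n ∧
      (r n : ℝ) ≤ ρ * (n : ℝ) ^ 4 / 24 - (n : ℝ) ^ 3 / 8 + 13 * (n : ℝ) ^ (5 / 2 : ℝ)) :
    (fun n : ℕ => (r n : ℝ) / (n.choose 4 : ℝ) - (ρ - (3 - 6 * ρ) / n)) =O[atTop]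
      fun n : ℕ => (n : ℝ) ^ (-3 / 2 : ℝ) := by
  refine Asymptotics.IsBigO.of_bound 4000 ((eventually_ge_atTop 4).mono fun n hn => ?_)
  have n4 : (4 : ℝ) ≤ n := by exact_mod_cast hn
  have e1 : (n.choose 4 : ℝ) = n * (n - 1) * (n - 2) * (n - 3) / 24 := by
    rw [Nat.cast_choose_eq_descPochhammer_div, descPochhammer_eval_eq_prod_range]
    simp [prod_range_succ, Nat.factorial]
  have e2 : (n : ℝ) ^ (5 / 2 : ℝ) = (n : ℝ) ^ (-3 / 2 : ℝ) * (n : ℝ) ^ 4 := by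
    rw [← Real.rpow_natCast, ← Real.rpow_add (by positivity)]; norm_num
  have e3 : (n : ℝ) ^ 2 ≤ (n : ℝ) ^ (5 / 2 : ℝ) := by
    rw [← Real.rpow_natCast]
    exact Real.rpow_le_rpow_of_exponent_le (by linarith) (by norm_num)
  have e4 : 0 < (n : ℝ) ^ (-3 / 2 : ℝ) := by positivity
  obtain ⟨a1, a2⟩ := h n
  rw [e2] at a2 e3
  rw [Real.norm_of_nonneg e4.le, Real.norm_eq_abs]
  generalize (n : ℝ) ^ (-3 / 2 : ℝ) = y at *
  generalize (r n : ℝ) = c at *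
  generalize (n : ℝ) = x at *
  have b1 : 3 / 32 * x ^ 4 ≤ x * (x - 1) * (x - 2) * (x - 3) := by
    have : 0 ≤ x - 1 := by linarith
    have : 0 ≤ x - 2 := by linarith
    calc 3 / 32 * x ^ 4 = x * (3 / 4 * x) * (1 / 2 * x) * (1 / 4 * x) := by ring
      _ ≤ _ := by gcongr <;> linarith
  have b0 : 0 < x * (x - 1) * (x - 2) * (x - 3) := lt_of_lt_of_le (by positivity) b1
  have e5 : c / (n.choose 4 : ℝ) - (ρ - (3 - 6 * ρ) / x) = (24 * c - ρ * x ^ 4 + 3 * x ^ 3 -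
      ρ * (11 * x ^ 2 - 6 * x) - (3 - 6 * ρ) * (6 * x ^ 2 - 11 * x + 6)) /
        (x * (x - 1) * (x - 2) * (x - 3)) := by
    have : x - 1 ≠ 0 := by linarith
    have : x - 2 ≠ 0 := by linarith
    have : x - 3 ≠ 0 := by linarith
    rw [e1]
    field_simp
    ring
  rw [e5, abs_div, abs_of_pos b0, div_le_iff₀ b0]
  have b2 := mul_le_mul_of_nonneg_left b1 e4.le
  have b3 : 0 ≤ 11 * x ^ 2 - 6 * x := by nlinarith
  have b4 : 0 ≤ 6 * x ^ 2 - 11 * x + 6 := by nlinarith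
  have b5 := mul_nonneg h0 b3
  have b6 := mul_nonneg (sub_nonneg.2 h1) b3
  have b7 := mul_nonneg h0 b4
  have b8 := mul_nonneg (sub_nonneg.2 h1) b4
  rw [abs_le]
  constructor <;> nlinarith

end CrSo
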