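import Mathlib

/-! A perfect matching of `2 m` points that is crossed rarely by a given family of lines. -/

set_option linter.unusedSectionVars false

namespace CrSo

open Finset Function

lemma pairing {α : Type} [Fintype α] {m : ℕ} (hm : Fintype.card α = m * 2) (Θ : α → ℤ) {M : ℤ}
    (hM : 0 ≤ M) (h : ∀ z, 0 ≤ Θ z ∧ Θ z ≤ M) :
    ∃ e : Fin m × Bool ≃ α, ∑ k, |Θ (e (k, true)) - Θ (e (k, false))| ≤ M := by
  obtain ⟨g, -⟩ : ∃ _ : Fin (m * 2) ≃ α, True := ⟨(Fintype.equivFinOfCardEq hm).symm, trivial⟩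
  have mono := Tuple.monotone_sort (Θ ∘ g)
  obtain ⟨G, hG⟩ : ∃ G : ℕ → ℤ, G = fun n =>
    if h : n < m * 2 then Θ (g (Tuple.sort (Θ ∘ g) ⟨n, h⟩)) else M := ⟨_, rfl⟩
  have hmono : Monotone G := fun a b hab => by
    simp only [hG]
    split_ifs with h1 h2 h2
    · exact mono (show (⟨a, h1⟩ : Fin (m * 2)) ≤ ⟨b, h2⟩ from hab)
    · exact (h _).2
    · omega
    · rfl
  refine ⟨(((Equiv.refl _).prodCongr finTwoEquiv.symm).trans finProdFinEquiv).trans
    ((Tuple.sort (Θ ∘ g)).trans g), ?_⟩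
  have h1 : ∀ (k : Fin m) (j : Fin 2), Θ (g (Tuple.sort (Θ ∘ g) (finProdFinEquiv (k, j)))) =
      G (j + 2 * k) := fun k j => by
    have := (finProdFinEquiv (k, j)).2
    simp only [hG]
    rw [dif_pos (show (j : ℕ) + 2 * k < m * 2 from this)]
    rfl
  calc _ ≤ ∑ k : Fin m, (G (2 * (k + 1)) - G (2 * k)) := sum_le_sum fun k _ => by
        change |Θ (g (Tuple.sort (Θ ∘ g) (finProdFinEquiv (k, 1)))) -
          Θ (g (Tuple.sort (Θ ∘ g) (finProdFinEquiv (k, 0))))| ≤ _
        rw [h1, h1]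
        have a1 := hmono (show ((0 : Fin 2) : ℕ) + 2 * k ≤ (1 : Fin 2) + 2 * k by simp)
        have a2 := hmono (show ((1 : Fin 2) : ℕ) + 2 * k ≤ 2 * (k + 1) by simp; omega)
        rw [abs_of_nonneg (sub_nonneg.2 a1), show ((0 : Fin 2) : ℕ) + 2 * k = 2 * k by simp]
        linarith
    _ = G (2 * m) - G (2 * 0) := by
        rw [Fin.sum_univ_eq_sum_range (fun k => G (2 * (k + 1)) - G (2 * k)) m]
        exact sum_range_sub (fun k => G (2 * k)) m
    _ ≤ M := by
        have a1 : G (2 * m) = M := by simp only [hG]; rw [dif_neg (by omega)]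
        have a2 : 0 ≤ G (2 * 0) := by
          simp only [hG]
          split_ifs
          exacts [(h _).1, hM]
        linarith

/-- The part of a rank inside one band. -/
def clamp (w β x : ℕ) : ℤ := (min (x - (β + 1) * w) w : ℕ)

lemma clamp_sum (w x B : ℕ) : ∑ β ∈ range B, clamp w β x = (min (x - w) (B * w) : ℕ) := by
  induction B with
  | zero => simp
  | succ B ih =>
    rw [sum_range_succ, ih, clamp, add_mul, one_mul]
    omega

lemma clamp_var (w x y B : ℕ) : ∑ β ∈ range B, |clamp w β y - clamp w β x| ≤ |(y : ℤ) - x| := by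
  wlog h : x ≤ y generalizing x y
  · simpa only [abs_sub_comm] using this y x (le_of_not_ge h)
  rw [sum_congr rfl fun β _ => abs_of_nonneg (show 0 ≤ clamp w β y - clamp w β x by
    unfold clamp; omega), sum_sub_distrib, clamp_sum, clamp_sum, abs_of_nonneg (by omega)]
  omega

variable {Λ : Type} [Fintype Λ]

/-- The variation of all ranks inside one band up to time `q`. -/
def vr (r : ℕ → Λ → ℕ) (w β q : ℕ) : ℤ :=
  ∑ s ∈ range q, ∑ l, |clamp w β (r (s + 1) l) - clamp w β (r s l)|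

lemma vr_mono (r : ℕ → Λ → ℕ) (w β : ℕ) : Monotone (vr r w β) := fun _ _ h =>
  sum_le_sum_of_subset_of_nonneg (range_mono h) fun _ _ _ => by positivity

lemma vr_nonneg (r : ℕ → Λ → ℕ) (w β q : ℕ) : 0 ≤ vr r w β q := by unfold vr; positivity

lemma vr_ge (r : ℕ → Λ → ℕ) (w β s t : ℕ) :
    ∑ l, |clamp w β (r t l) - clamp w β (r s l)| ≤ |vr r w β t - vr r w β s| := by
  wlog h : s ≤ t generalizing s t
  · simpa only [abs_sub_comm] using this t s (le_of_not_ge h)
  refine le_trans ?_ (le_abs_self _)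
  induction t, h using Nat.le_induction with
  | base => simp
  | succ t _ ih =>
    have := sum_le_sum (s := univ) fun l _ =>
      abs_sub_le (clamp w β (r (t + 1) l)) (clamp w β (r t l)) (clamp w β (r s l))
    rw [vr, sum_range_succ, ← vr]
    rw [sum_add_distrib] at this
    linarith

open Classical in
lemma embed {α : Type} (r : ℕ → Λ → ℕ) (lev idx : α → ℕ) {N w : ℕ} (hw : 0 < w)
    (inj : ∀ q, Injective (r q))
    (tv : ∀ l, ∑ s ∈ range N, |(r (s + 1) l : ℤ) - r s l| ≤ Fintype.card Λ)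
    (hl : ∀ z, lev z ≤ Fintype.card Λ) (hi : ∀ z, idx z ≤ N) :
    ∃ Θ : α → ℤ, (∀ z, 0 ≤ Θ z ∧ Θ z ≤ 2 * (Fintype.card Λ : ℤ) ^ 2) ∧ ∀ y z,
      (w : ℤ) * ∑ l, (if r (idx y) l < lev y ↔ r (idx z) l < lev z then 0 else 1) ≤
        4 * (w : ℤ) ^ 2 + |Θ y - Θ z| := by
  have tot : ∀ B, ∑ β ∈ range B, vr r w β N ≤ (Fintype.card Λ : ℤ) ^ 2 := fun B => by
    unfold vr
    rw [sum_comm, sum_congr rfl fun _ _ => sum_comm, sum_comm]
    refine (sum_le_sum fun l _ => (sum_le_sum fun s _ => clamp_var w _ _ B).trans (tv l)).trans ?_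
    simp [sq]
  refine ⟨fun z => ∑ β ∈ range (lev z / w), vr r w β N + vr r w (lev z / w) (idx z) +
    w * Fintype.card Λ * (lev z / w : ℕ), fun z => ⟨?_, ?_⟩, fun y z => ?_⟩
  · exact add_nonneg (add_nonneg (sum_nonneg fun β _ => vr_nonneg r w β N) (vr_nonneg _ _ _ _))
      (mul_nonneg (mul_nonneg (Nat.cast_nonneg _) (Nat.cast_nonneg _)) (Nat.cast_nonneg _))
  · have h1 := tot (lev z / w + 1)
    have h2 := vr_mono r w (lev z / w) (hi z)
    have h3 : (w : ℤ) * (lev z / w : ℕ) ≤ Fintype.card Λ := by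
      exact_mod_cast (Nat.mul_div_le _ _).trans (hl z)
    have h4 := mul_le_mul_of_nonneg_left h3 (Nat.cast_nonneg (Fintype.card Λ))
    rw [sum_range_succ] at h1
    simp only
    nlinarith
  wlog h : lev z / w ≤ lev y / w generalizing y z
  · simpa only [abs_sub_comm, iff_comm] using this z y (le_of_not_ge h)
  rcases h.eq_or_lt with h | h
  · have cnt : ∀ q, ∑ l, (if r q l ∈ Ico (lev z / w * w) (lev z / w * w + 2 * w) then 1 else 0 : ℤ)
        ≤ 2 * w := fun q => by
      rw [sum_boole]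
      have := card_le_card_of_injOn (s := univ.filter fun l =>
        r q l ∈ Ico (lev z / w * w) (lev z / w * w + 2 * w))
        (t := Ico (lev z / w * w) (lev z / w * w + 2 * w)) (r q)
        (fun l hl => (mem_filter.1 hl).2) (inj q).injOn
      rw [Nat.card_Ico, Nat.add_sub_cancel_left] at this
      exact_mod_cast this
    have h1 := vr_ge r w (lev z / w) (idx z) (idx y)
    have h2 : (w : ℤ) * ∑ l, (if r (idx y) l < lev y ↔ r (idx z) l < lev z then 0 else 1) ≤
        w * ∑ l, (if r (idx y) l ∈ Ico (lev z / w * w) (lev z / w * w + 2 * w) then 1 else 0 : ℤ) +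
        w * ∑ l, (if r (idx z) l ∈ Ico (lev z / w * w) (lev z / w * w + 2 * w) then 1 else 0 : ℤ) +
        ∑ l, |clamp w (lev z / w) (r (idx y) l) - clamp w (lev z / w) (r (idx z) l)| := by
      simp only [mul_sum, ← sum_add_distrib]
      refine sum_le_sum fun l _ => ?_
      have a1 := Nat.div_mul_le_self (lev z) w
      have a2 := Nat.lt_div_mul_add (a := lev z) hw
      have a3 := Nat.div_mul_le_self (lev y) w
      have a4 := Nat.lt_div_mul_add (a := lev y) hw
      rw [← h] at a3 a4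
      have a5 := le_abs_self
        (clamp w (lev z / w) (r (idx y) l) - clamp w (lev z / w) (r (idx z) l))
      have a6 := neg_le_abs
        (clamp w (lev z / w) (r (idx y) l) - clamp w (lev z / w) (r (idx z) l))
      generalize |clamp w (lev z / w) (r (idx y) l) - clamp w (lev z / w) (r (idx z) l)| = A at *
      simp only [clamp, add_mul, one_mul, mem_Ico] at a5 a6 ⊢
      generalize lev z / w * w = b at *
      split_ifs <;> omega
    have h3 := mul_le_mul_of_nonneg_left (cnt (idx y)) (Nat.cast_nonneg w)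
    have h4 := mul_le_mul_of_nonneg_left (cnt (idx z)) (Nat.cast_nonneg w)
    simp only [← h, add_sub_add_right_eq_sub, add_sub_add_left_eq_sub]
    linarith
  · have h1 : ∑ l : Λ, (if r (idx y) l < lev y ↔ r (idx z) l < lev z then 0 else 1 : ℤ) ≤
        Fintype.card Λ :=
      (sum_le_sum (g := fun _ => 1) fun l _ => by split_ifs <;> norm_num).trans (by simp)
    have h2 := mul_le_mul_of_nonneg_left h1 (Nat.cast_nonneg w)
    have h3 : ∑ β ∈ range (lev z / w + 1), vr r w β N ≤ ∑ β ∈ range (lev y / w), vr r w β N :=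
      sum_le_sum_of_subset_of_nonneg (range_mono h) fun β _ _ => vr_nonneg r w β N
    have h4 := vr_mono r w (lev z / w) (hi z)
    have h5 := vr_nonneg r w (lev y / w) (idx y)
    have h6 : ((lev z / w : ℕ) : ℤ) + 1 ≤ (lev y / w : ℕ) := by exact_mod_cast h
    have h7 := mul_le_mul_of_nonneg_left h6 (show (0 : ℤ) ≤ w * Fintype.card Λ by positivity)
    rw [sum_range_succ] at h3
    refine le_trans ?_ (add_le_add_right (le_abs_self _) _)
    simp only
    nlinarith [sq_nonneg (w : ℤ)]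

lemma times {α : Type} [Fintype α] (u : α → ℝ) : ∃ (N : ℕ) (τ : ℕ → ℝ) (idx : α → ℕ),
    Monotone τ ∧ ∀ z, idx z ≤ N ∧ τ (idx z) = u z := by
  classical
  obtain ⟨T, hT⟩ : ∃ T, T = univ.image u := ⟨_, rfl⟩
  have h : ∀ z, ∃ i, T.orderEmbOfFin rfl i = u z := fun z => by
    have : u z ∈ Set.range (T.orderEmbOfFin rfl) := by
      rw [range_orderEmbOfFin, hT]; simp
    exact this
  choose i hi using h
  refine ⟨T.card, fun q => if h : q < T.card then T.orderEmbOfFin rfl ⟨q, h⟩ else ∑ x ∈ T, |x|,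
    fun z => i z, fun a b hab => ?_, fun z => ⟨(i z).2.le, ?_⟩⟩
  · simp only
    split_ifs with h1 h2 h2
    · exact (T.orderEmbOfFin rfl).monotone (show (⟨a, h1⟩ : Fin T.card) ≤ ⟨b, h2⟩ from hab)
    · exact (le_abs_self _).trans (single_le_sum (f := fun x => |x|) (fun _ _ => abs_nonneg _)
        (orderEmbOfFin_mem _ _ _))
    · omega
    · rfl
  · simp only
    rw [dif_pos (i z).2, hi]

lemma tv_bool (p : ℕ → Prop) [DecidablePred p] (h : ∀ s t, s ≤ t → p s → p t) (N : ℕ) :
    ∑ s ∈ range N, |(if p (s + 1) then 1 else 0 : ℤ) - if p s then 1 else 0| ≤ 1 := by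
  rw [sum_congr rfl fun s _ => abs_of_nonneg (by
    have := h s (s + 1) (Nat.le_succ s)
    split_ifs <;> simp_all), sum_range_sub fun s => (if p s then 1 else 0 : ℤ)]
  split_ifs <;> norm_num

open Classical in
theorem matching {α : Type} [Fintype α] {m w : ℕ} (hm : Fintype.card α = m * 2) (hw : 0 < w)
    (u v : α → ℝ) (a c : Λ → ℝ) : ∃ e : Fin m × Bool ≃ α, (w : ℤ) * ∑ k, ∑ l,
      (if a l * u (e (k, true)) + c l < v (e (k, true)) ↔
        a l * u (e (k, false)) + c l < v (e (k, false)) then 0 else 1) ≤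
      4 * (w : ℤ) ^ 2 * m + 2 * (Fintype.card Λ : ℤ) ^ 2 := by
  obtain ⟨N, τ, idx, hτ, hi⟩ := times u
  obtain ⟨n, hn⟩ : ∃ n : Λ → ℕ, Injective n :=
    ⟨fun l => Fintype.equivFin Λ l, Fin.val_injective.comp (Fintype.equivFin Λ).injective⟩
  obtain ⟨K, hK⟩ : ∃ K : ℕ → Λ → ℝ ×ₗ ℕ, K = fun q l => toLex (a l * τ q + c l, n l) := ⟨_, rfl⟩
  obtain ⟨r, hr⟩ : ∃ r : ℕ → Λ → ℕ, r = fun q l => (univ.filter fun l' => K q l' < K q l).card :=
    ⟨_, rfl⟩
  have lt : ∀ q l l', K q l' < K q l ↔ a l' * τ q + c l' < a l * τ q + c l ∨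
      a l' * τ q + c l' = a l * τ q + c l ∧ n l' < n l := fun q l l' => by
    simp only [hK, Prod.Lex.toLex_lt_toLex]
  have sm : ∀ q l l', K q l' < K q l → r q l' < r q l := fun q l l' h => by
    simp only [hr]
    refine card_lt_card ⟨fun x hx => ?_, fun hx => ?_⟩
    · exact mem_filter.2 ⟨mem_univ _, (mem_filter.1 hx).2.trans h⟩
    · exact lt_irrefl _ (mem_filter.1 (hx (mem_filter.2 ⟨mem_univ _, h⟩))).2
  have inj : ∀ q, Injective (r q) := fun q l l' h => by
    rcases lt_trichotomy (K q l) (K q l') with h1 | h1 | h1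
    · exact absurd h (sm q _ _ h1).ne
    · simp only [hK] at h1
      exact hn (congrArg (fun x => (ofLex x).2) h1)
    · exact absurd h (sm q _ _ h1).ne'
  have up : ∀ l l', a l' ≤ a l → ∀ s t, s ≤ t → K s l' < K s l → K t l' < K t l :=
    fun l l' h s t hst h1 => by
      have h2 := mul_nonneg (sub_nonneg.2 h) (sub_nonneg.2 (hτ hst))
      rw [lt] at h1 ⊢
      rcases h1 with h1 | ⟨h1, h3⟩
      · exact Or.inl (by linarith)
      · exact (show a l' * τ t + c l' ≤ a l * τ t + c l by linarith).lt_or_eq.imp_right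
          fun h => ⟨h, h3⟩
  have dn : ∀ l l', a l ≤ a l' → ∀ s t, s ≤ t → ¬ K s l' < K s l → ¬ K t l' < K t l :=
    fun l l' h s t hst h1 h2 => h1 (by
      have h3 := mul_nonneg (sub_nonneg.2 h) (sub_nonneg.2 (hτ hst))
      rw [lt] at h2 ⊢
      rcases h2 with h2 | ⟨h2, h4⟩
      · exact Or.inl (by linarith)
      · exact (show a l' * τ s + c l' ≤ a l * τ s + c l by linarith).lt_or_eq.imp_right
          fun h => ⟨h, h4⟩)
  have tv : ∀ l, ∑ s ∈ range N, |(r (s + 1) l : ℤ) - r s l| ≤ Fintype.card Λ := fun l => by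
    simp only [hr, card_filter, Nat.cast_sum, Nat.cast_ite, Nat.cast_one, Nat.cast_zero,
      ← sum_sub_distrib]
    refine (sum_le_sum fun s _ => abs_sum_le_sum_abs _ _).trans ?_
    rw [sum_comm]
    refine (sum_le_sum (g := fun _ => 1) fun l' _ => ?_).trans (by simp)
    rcases le_total (a l') (a l) with h | h
    · exact tv_bool _ (up l l' h) N
    · refine le_of_eq_of_le (sum_congr rfl fun s _ => ?_) (tv_bool _ (dn l l' h) N)
      split_ifs <;> norm_num
  obtain ⟨Θ, h1, h2⟩ := embed r (fun z => (univ.filter fun l => a l * u z + c l < v z).card) idx hw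
    inj tv (fun z => card_le_univ _) fun z => (hi z).1
  have key : ∀ z l, r (idx z) l < (univ.filter fun l => a l * u z + c l < v z).card ↔
      a l * u z + c l < v z := fun z l => by
    simp only [hr]
    refine ⟨fun h => by_contra fun h3 => h.not_ge (card_le_card fun x hx => ?_),
      fun h => card_lt_card ⟨fun x hx => ?_, fun hx => ?_⟩⟩
    · refine mem_filter.2 ⟨mem_univ _, (lt _ _ _).2 (Or.inl ?_)⟩
      rw [(hi z).2]
      exact (mem_filter.1 hx).2.trans_le (not_lt.1 h3)
    · have h4 := (lt _ _ _).1 (mem_filter.1 hx).2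
      rw [(hi z).2] at h4
      exact mem_filter.2 ⟨mem_univ _, (h4.elim le_of_lt fun h => h.1.le).trans_lt h⟩
    · exact lt_irrefl _ (mem_filter.1 (hx (mem_filter.2 ⟨mem_univ _, h⟩))).2
  simp only [key] at h2
  obtain ⟨e, he⟩ := pairing hm Θ (by positivity) h1
  refine ⟨e, ?_⟩
  have h3 := sum_le_sum (s := univ) fun k _ => h2 (e (k, true)) (e (k, false))
  rw [sum_add_distrib, ← mul_sum, sum_const, card_univ, Fintype.card_fin, nsmul_eq_mul] at h3
  linarith

end CrSo
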