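import Pool.Agent.MP_31ecd0_co.so.Ident
import Pool.Agent.MP_31ecd0_co.so.Half
import Pool.Agent.MP_31ecd0_co.so.Match

/-! The two steps: blowing a set up along almost halving lines, and keeping half of a set. -/

namespace CrSo

open Finset CrUp Function

lemma shear {α : Type} [Fintype α] {p : α → P} (hp : Injective p) :
    ∃ t : ℝ, ∀ b d, b ≠ d → (p d - p b).1 + t * (p d - p b).2 ≠ 0 := by
  classical
  obtain ⟨t, ht⟩ := Infinite.exists_notMem_finset
    (univ.image fun x : α × α => - (p x.2 - p x.1).1 / (p x.2 - p x.1).2)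
  refine ⟨t, fun b d hbd h => ?_⟩
  by_cases h2 : (p d - p b).2 = 0
  · rw [h2, mul_zero, add_zero] at h
    exact hbd (hp (sub_eq_zero.1 (Prod.ext h h2)).symm)
  · exact ht (mem_image.2 ⟨(b, d), mem_univ _, by rw [div_eq_iff h2]; linarith⟩)

lemma ivt {α : Type} (s : α → ℝ) (ε : α → ℤ) (Z : Finset α) (hs : Set.InjOn s Z)
    (hε : ∀ j ∈ Z, |ε j| ≤ 1) : ∀ (c : ℤ) (M : ℝ), (∀ j ∈ Z, s j < M) →
      (0 ≤ c ∧ c ≤ ∑ j ∈ Z, ε j ∨ ∑ j ∈ Z, ε j ≤ c ∧ c ≤ 0) →
      ∃ σ < M, (∀ j ∈ Z, s j ≠ σ) ∧ ∑ j ∈ Z, (if s j < σ then ε j else 0) = c := by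
  classical
  induction Z using Finset.induction_on_max_value s with
  | empty => exact fun c M _ h => ⟨M - 1, by linarith, by simp, by simp at h ⊢; omega⟩
  | insert a Z ha hm ih =>
    intro c M hM hc
    have h1 : ∀ j ∈ Z, s j < s a := fun j hj => (hm j hj).lt_of_ne fun h =>
      ha (hs (mem_coe.2 (mem_insert_of_mem hj)) (mem_coe.2 (mem_insert_self _ _)) h ▸ hj)
    have h2 := abs_le.1 (hε a (mem_insert_self _ _))
    have h3 := hM a (mem_insert_self _ _)
    rw [sum_insert ha] at hc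
    by_cases e : c = ε a + ∑ j ∈ Z, ε j
    · refine ⟨(s a + M) / 2, by linarith, fun j hj => ?_, ?_⟩
      · rcases mem_insert.1 hj with rfl | hj
        · linarith
        · linarith [h1 j hj]
      · rw [sum_insert ha, if_pos (by linarith), e,
          sum_congr rfl fun j hj => if_pos (by linarith [h1 j hj])]
    · obtain ⟨σ, a1, a2, a3⟩ := ih (hs.mono (by simp)) (fun j hj => hε j (mem_insert_of_mem hj))
        c (s a) h1 (by omega)
      refine ⟨σ, by linarith, fun j hj => ?_, ?_⟩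
      · rcases mem_insert.1 hj with rfl | hj
        exacts [a1.ne', a2 j hj]
      · rw [sum_insert ha, if_neg a1.not_gt, zero_add, a3]

lemma dir {ι : Type} [Fintype ι] {p : ι → P} (hi : Injective p)
    (hp : ∀ i j k, i ≠ j → i ≠ k → j ≠ k → det (p j - p i) (p k - p i) ≠ 0) (i : ι) :
    ∃ d : P, d ≠ 0 ∧ (∀ j, i ≠ j → det d (p j - p i) ≠ 0) ∧ |∑ k, sg (det d (p k - p i))| ≤ 1 := by
  classical
  obtain ⟨t, ht⟩ := shear hi
  obtain ⟨U, hU⟩ : ∃ U : ι → ℝ, U = fun j => (p j - p i).1 + t * (p j - p i).2 := ⟨_, rfl⟩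
  have hU0 : ∀ j ∈ univ.erase i, U j ≠ 0 := fun j hj => by
    rw [hU]; exact ht i j (ne_of_mem_erase hj).symm
  obtain ⟨σ, -, a2, a3⟩ := ivt (fun j => (p j - p i).2 / U j) (fun j => sg (U j)) (univ.erase i)
    (fun j hj k hk h => by_contra fun hjk => hp i j k (ne_of_mem_erase hj).symm
      (ne_of_mem_erase hk).symm hjk (by
        rw [div_eq_div_iff (hU0 j hj) (hU0 k hk), hU] at h
        simp only [det] at h ⊢
        linarith))
    (fun j _ => sg_abs_le _) ((∑ j ∈ univ.erase i, sg (U j)) / 2)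
    (∑ j ∈ univ.erase i, |(p j - p i).2 / U j| + 1) (fun j hj => by
      have := single_le_sum (f := fun j => |(p j - p i).2 / U j|) (fun _ _ => abs_nonneg _) hj
      linarith [le_abs_self ((p j - p i).2 / U j)]) (by omega)
  have e : ∀ j ∈ univ.erase i, det (1 - t * σ, σ) (p j - p i) = U j * ((p j - p i).2 / U j - σ) :=
    fun j hj => by
      rw [mul_sub, mul_div_cancel₀ _ (hU0 j hj), hU]
      simp only [det]
      ring
  refine ⟨(1 - t * σ, σ), fun h => ?_, fun j hj => ?_, ?_⟩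
  · simp only [Prod.mk_eq_zero] at h
    simpa [h.2] using h.1
  · have hj' : j ∈ univ.erase i := mem_erase.2 ⟨hj.symm, mem_univ _⟩
    rw [e j hj']
    exact mul_ne_zero (hU0 j hj') (sub_ne_zero.2 (a2 j hj'))
  · have h1 : ∑ k, sg (det (1 - t * σ, σ) (p k - p i)) = ∑ j ∈ univ.erase i, sg (U j) -
        2 * ∑ j ∈ univ.erase i, if (p j - p i).2 / U j < σ then sg (U j) else 0 := by
      rw [← add_sum_erase _ _ (mem_univ i), sub_self, show det (1 - t * σ, σ) 0 = 0 by simp [det],
        sg_zero, zero_add, mul_sum, ← sum_sub_distrib]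
      refine sum_congr rfl fun j hj => ?_
      rw [e j hj, sg_mul]
      split_ifs with h
      · rw [sg_neg' (sub_neg.2 h)]; ring
      · rw [sg_pos (sub_pos.2 ((not_lt.1 h).lt_of_ne (a2 j hj).symm))]; ring
    rw [h1, a3, abs_le]
    omega

lemma fam {S : Finset P} (hS : GP S) (i j k : S) (h1 : i ≠ j) (h2 : i ≠ k) (h3 : j ≠ k) :
    det ((j : P) - i) (k - i) ≠ 0 :=
  hS _ i.2 _ j.2 _ k.2 (Subtype.coe_ne_coe.2 h1) (Subtype.coe_ne_coe.2 h2)
    (Subtype.coe_ne_coe.2 h3)

lemma ident' {S : Finset P} (hS : GP S) : ∑ a : S, ∑ b : S, (∑ c : S, o a b c) ^ 2 =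
    8 * conv S + S.card * (S.card - 1) * (S.card - 2) := by
  rw [← ident hS, ← sum_coe_sort S]
  refine sum_congr rfl fun a _ => ?_
  rw [← sum_coe_sort S]
  refine sum_congr rfl fun b _ => ?_
  rw [← sum_coe_sort S]

theorem up {S : Finset P} (hS : GP S) (N : ℕ) : ∃ A : Finset P, A.card = N * S.card ∧ GP A ∧
    24 * (conv A : ℤ) ≤ (N : ℤ) ^ 4 *
      (24 * conv S + 3 * (S.card : ℤ) ^ 3 - 7 * (S.card : ℤ) ^ 2 + 16 * S.card) := by
  classical
  choose d h0 h1 h2 using dir (p := ((↑) : S → P)) Subtype.val_injective (fam hS)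
  obtain ⟨A, a1, a2, a3⟩ := blow (fun _ => 1) (fam hS) h1 h0 N
  refine ⟨A, by simpa using a1, a2, a3.trans (mul_le_mul_of_nonneg_left ?_ (by positivity))⟩
  have h3 : ∀ i j : S, term (↑) d (fun _ => 1) i j ≤
      3 * (∑ c : S, o i j c) ^ 2 + 2 + if j = i then 10 else 0 := fun i j => by
    unfold term
    split_ifs
    · have h4 : |eps (↑) d (fun _ => 1) i| ≤ 1 := by simpa [eps, tau] using h2 i
      have h5 := abs_nonneg (eps (↑) d (fun _ => 1) i)
      push_cast
      nlinarith [sq_nonneg (∑ c : S, o i j c)]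
    · simp [Dl, add_assoc]
  refine (sum_le_sum fun i _ => sum_le_sum fun j _ => h3 i j).trans (le_of_eq ?_)
  simp only [sum_add_distrib, ← mul_sum, ident' hS, sum_ite_eq', mem_univ, if_true, sum_const,
    card_univ, Fintype.card_coe, nsmul_eq_mul]
  ring

theorem down {S : Finset P} (hS : GP S) {m w : ℕ} (hm : S.card = m * 2) (hw : 0 < w) :
    ∃ A : Finset P, A.card = m ∧ GP A ∧ (w : ℤ) * (16 * (8 * conv A + m * (m - 1) * (m - 2))) ≤
      w * (8 * conv S + 2 * m * (2 * m - 1) * (2 * m - 2)) + 80 * (w : ℤ) ^ 2 * m +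
        640 * (m : ℤ) ^ 4 + 176 * w * (m : ℤ) ^ 2 := by
  classical
  obtain ⟨t, ht⟩ := shear (p := ((↑) : S → P)) Subtype.val_injective
  obtain ⟨a, ha⟩ : ∃ a : S × S → ℝ, a = fun l =>
    ((l.2 : P) - l.1).2 / (((l.2 : P) - l.1).1 + t * ((l.2 : P) - l.1).2) := ⟨_, rfl⟩
  obtain ⟨e, he⟩ := matching ((Fintype.card_coe S).trans hm) hw (fun z => (z : P).1 + t * (z : P).2)
    (fun z => (z : P).2) a fun l => (l.1 : P).2 - a l * ((l.1 : P).1 + t * (l.1 : P).2)
  obtain ⟨f, hf⟩ := half (O := fun x y z => o (e x) (e y) (e z)) (fun _ _ _ => o_swap _ _ _)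
    (fun _ _ _ => o_rot _ _ _) fun _ _ _ => sg_abs_le _
  have inj : Injective fun k => (e (k, f k) : P) := fun k l h =>
    congrArg Prod.fst (e.injective (Subtype.ext h))
  have gp : GP (univ.image fun k => (e (k, f k) : P)) := hS.mono fun x hx => by
    obtain ⟨k, -, rfl⟩ := mem_image.1 hx
    exact (e _).2
  have cd : (univ.image fun k => (e (k, f k) : P)).card = m := by
    rw [card_image_of_injective _ inj, card_univ, Fintype.card_fin]
  refine ⟨_, cd, gp, ?_⟩
  have h1 := ident gp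
  simp only [sum_image inj.injOn, cd] at h1
  have h2 : ∑ x, ∑ y, (∑ z, o (e x) (e y) (e z)) ^ 2 = 8 * conv S +
      2 * m * (2 * m - 1) * (2 * m - 2) := by
    have := ident' hS
    rw [hm, ← e.sum_comp] at this
    simp only [← e.sum_comp] at this
    rw [this]
    push_cast
    ring
  have h3 : ∀ b d y z : S, (o b d y - o b d z) ^ 2 ≤ 4 * ((if a (b, d) * ((y : P).1 + t * (y : P).2) +
      ((b : P).2 - a (b, d) * ((b : P).1 + t * (b : P).2)) < (y : P).2 ↔
      a (b, d) * ((z : P).1 + t * (z : P).2) +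
      ((b : P).2 - a (b, d) * ((b : P).1 + t * (b : P).2)) < (z : P).2 then 0 else 1) +
      (if b = y then 1 else 0) + (if d = y then 1 else 0) + (if b = z then 1 else 0) +
      if d = z then 1 else 0) := fun b d y z => by
    have b1 := abs_le.1 (show |o b d y| ≤ 1 from sg_abs_le _)
    have b2 := abs_le.1 (show |o b d z| ≤ 1 from sg_abs_le _)
    have b3 : (o b d y - o b d z) ^ 2 ≤ 4 := by nlinarith
    by_cases e0 : b = d
    · have : ∀ x : P, o b d x = 0 := fun x => by simp [e0, o, det]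
      rw [this, this]
      split_ifs <;> norm_num
    have k : ∀ x : S, b ≠ x → d ≠ x → o b d x = sg (((d : P) - b).1 + t * ((d : P) - b).2) *
        if a (b, d) * ((x : P).1 + t * (x : P).2) +
          ((b : P).2 - a (b, d) * ((b : P).1 + t * (b : P).2)) < (x : P).2 then 1 else -1 := by
      intro x h1 h2
      have h3 := fam hS b d x e0 h1 h2
      have h4 : det ((d : P) - b) (x - b) = (((d : P) - b).1 + t * ((d : P) - b).2) * ((x : P).2 -
          (a (b, d) * ((x : P).1 + t * (x : P).2) +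
            ((b : P).2 - a (b, d) * ((b : P).1 + t * (b : P).2)))) := by
        have h5 : (((d : P) - b).1 + t * ((d : P) - b).2) * a (b, d) = ((d : P) - b).2 := by
          rw [ha]; exact mul_div_cancel₀ _ (ht b d e0)
        simp only [det, Prod.fst_sub, Prod.snd_sub] at h5 ⊢
        linear_combination ((x : P).1 + t * (x : P).2 - ((b : P).1 + t * (b : P).2)) * h5
      rw [o, h4, sg_mul]
      rw [h4] at h3
      split_ifs with h
      · rw [sg_pos (sub_pos.2 h)]
      · rw [sg_neg' ((sub_nonpos.2 (not_lt.1 h)).lt_of_ne (right_ne_zero_of_mul h3))]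
    split_ifs with c1 <;> try linarith
    rw [k y ‹_› ‹_›, k z ‹_› ‹_›, if_congr c1 rfl rfl]
    simp
  have h4 := sum_le_sum (s := univ) fun k _ => sum_le_sum (s := univ) fun l : S × S => fun _ =>
    h3 l.1 l.2 (e (k, true)) (e (k, false))
  have h5 : sepV (fun x y z => o (e x) (e y) (e z)) = ∑ k, ∑ l : S × S,
      (o l.1 l.2 (e (k, true)) - o l.1 l.2 (e (k, false))) ^ 2 := by
    rw [sum_comm, Fintype.sum_prod_type, ← e.sum_comp, sepV]
    refine sum_congr rfl fun x _ => ?_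
    rw [← e.sum_comp]
  have h6 : ∀ y : S, ∑ l : S × S, (if l.1 = y then 1 else 0 : ℤ) = m * 2 := fun y => by
    rw [Fintype.sum_prod_type, sum_comm]
    simp only [sum_ite_eq', mem_univ, if_true]
    simp [hm]
  have h7 : ∀ y : S, ∑ l : S × S, (if l.2 = y then 1 else 0 : ℤ) = m * 2 := fun y => by
    rw [Fintype.sum_prod_type]
    simp only [sum_ite_eq', mem_univ, if_true]
    simp [hm]
  rw [← h5] at h4
  simp only [← mul_sum, sum_add_distrib, h6, h7, sum_const, card_univ, Fintype.card_fin,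
    nsmul_eq_mul] at h4
  simp only [h1, h2, Fintype.card_fin] at hf
  rw [Fintype.card_prod, Fintype.card_coe, hm] at he
  push_cast at he
  have h8 := mul_le_mul_of_nonneg_left h4 (Nat.cast_nonneg (α := ℤ) w)
  have h9 := mul_le_mul_of_nonneg_left hf (Nat.cast_nonneg (α := ℤ) w)
  nlinarith

end CrSo
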